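import Pool.Agent.T9h97.RB.Spec

set_option autoImplicit false

/-!
MP_85f9db_co: piece (A) of `T9h97/RB/Spec.lean`, the local lemma with the constant 11/10.
-/

open Finset

namespace Pool.Agent.T9h75.RB

open Pool.Agent.Helper208.Rainbow Pool.Agent.T9h97.RB

theorem s_lll : S_LLL := by
  intro κ α ι _ _ _ _ _ _ _ A F hA x hx0 hx1 Z hZ h
  classical
  obtain ⟨ω, hω⟩ := lll univ A F hA x hx0 (fun i => by linarith [hx1 i]) (by
    intro i _
    refine le_trans (h i) ?_
    apply mul_le_mul_of_nonneg_right _ (by positivity)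
    apply mul_le_mul_of_nonneg_left _ (hx0 i)
    set N := univ.filter (fun j => j ≠ i ∧ ¬ Disjoint (F i) (F j)) with hN
    have h1 : ∑ j ∈ N, x j ≤ (F i).card * Z := by
      have hsub : N ⊆ (F i).biUnion (fun k => univ.filter (fun j => k ∈ F j)) := by
        intro j hj
        rw [hN, mem_filter, not_disjoint_iff] at hj
        obtain ⟨-, -, k, hk1, hk2⟩ := hj
        rw [mem_biUnion]
        exact ⟨k, hk1, by simpa using hk2⟩
      calc ∑ j ∈ N, x j ≤ ∑ j ∈ (F i).biUnion (fun k => univ.filter (fun j => k ∈ F j)), x j :=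
            sum_le_sum_of_subset_of_nonneg hsub (fun j _ _ => hx0 j)
        _ ≤ ∑ k ∈ F i, ∑ j ∈ univ.filter (fun j => k ∈ F j), x j := by
            induction F i using Finset.induction_on with
            | empty => simp
            | @insert k S hk ih =>
              rw [biUnion_insert, sum_insert hk]
              refine le_trans ?_ (add_le_add_right ih _)
              rw [← sum_union_inter]
              have : 0 ≤ ∑ j ∈ (univ.filter (fun j => k ∈ F j)) ∩
                  (S.biUnion fun k => univ.filter (fun j => k ∈ F j)), x j :=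
                sum_nonneg fun j _ => hx0 j
              linarith
        _ ≤ ∑ k ∈ F i, Z := sum_le_sum fun k _ => hZ k
        _ = (F i).card * Z := by rw [sum_const, nsmul_eq_mul]
    have h2 : ∀ j, Real.exp (-(11 / 10 * x j)) ≤ 1 - x j := by
      intro j
      have h3 := hx0 j
      have h4 := hx1 j
      have h5 : Real.exp (-(11 / 10 * x j)) ≤ (1 + 11 / 10 * x j)⁻¹ := by
        rw [Real.exp_neg]
        apply inv_anti₀ (by linarith)
        linarith [Real.add_one_le_exp (11 / 10 * x j)]
      refine le_trans h5 ?_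
      rw [inv_le_comm₀ (by linarith) (by linarith)]
      rw [← one_div, div_le_iff₀ (by linarith)]
      nlinarith
    calc Real.exp (-(11 / 10 * ((F i).card * Z))) ≤ Real.exp (∑ j ∈ N, -(11 / 10 * x j)) := by
          apply Real.exp_le_exp.mpr
          rw [sum_neg_distrib, ← mul_sum]
          linarith
      _ = ∏ j ∈ N, Real.exp (-(11 / 10 * x j)) := Real.exp_sum _ _
      _ ≤ ∏ j ∈ N, (1 - x j) :=
          prod_le_prod (fun j _ => (Real.exp_pos _).le) (fun j _ => h2 j))
  exact ⟨ω, fun i => hω i (mem_univ i)⟩

end Pool.Agent.T9h75.RB
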